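import Mathlib
import Pool.Agent.V11306.ToepW

/-!
# MP_29211c, Q2: the determinant `D^-_p` with four parameters
-/

set_option autoImplicit false

namespace Pool.Agent.Results.MP_29211c_nt.MinusCase

open NumberField

/-- For a prime `p ≡ 3 (mod 4)` and all complex `x, y, z, w` the determinant of order `(p-1)/2` of
`[x + ((j-k)/p) + (j/p) y + (k/p) z + (jk/p) w]`, `0 ≤ j, k ≤ (p-3)/2`, is `x`; for a prime
`p ≡ 1 (mod 4)` it is `-a' x - (2/p) b' v`, `v = w x - (y+1)(z+1)`, where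
`ε^((2-(2/p)) h(p)) = a' + b' √p`. -/
theorem result (p : ℕ) [Fact p.Prime] (hp : p ≠ 2) (x y z w : ℂ) :
    (p % 4 = 3 →
      (Matrix.of fun j k : Fin ((p - 1) / 2) => x + (legendreSym p ((j : ℤ) - (k : ℤ)) : ℂ) +
        (legendreSym p (j : ℤ) : ℂ) * y + (legendreSym p (k : ℤ) : ℂ) * z +
        (legendreSym p ((j : ℤ) * (k : ℤ)) : ℂ) * w).det = x) ∧
    (p % 4 = 1 →
      ∀ (K : Type) [Field K] [NumberField K], Module.finrank ℚ K = 2 → ∀ α : K, α ^ 2 = (p : K) →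
      ∀ σ : K →+* ℝ, 0 < σ α → ∀ ε : (𝓞 K)ˣ, 1 < σ ((ε : 𝓞 K) : K) →
      (∀ u : (𝓞 K)ˣ, ∃ n : ℤ, u = ε ^ n ∨ u = -ε ^ n) → ∀ a b : ℚ,
      ((ε : 𝓞 K) : K) ^ ((2 - legendreSym p 2) * (classNumber K : ℤ)) =
        algebraMap ℚ K a + algebraMap ℚ K b * α →
      (Matrix.of fun j k : Fin ((p - 1) / 2) => x + (legendreSym p ((j : ℤ) - (k : ℤ)) : ℂ) +
        (legendreSym p (j : ℤ) : ℂ) * y + (legendreSym p (k : ℤ) : ℂ) * z +
        (legendreSym p ((j : ℤ) * (k : ℤ)) : ℂ) * w).det =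
        -(a : ℂ) * x - (legendreSym p 2 : ℂ) * (b : ℂ) * (w * x - (y + 1) * (z + 1))) := by
  have hodd := (Fact.out : p.Prime).eq_two_or_odd
  have hm : p = 2 * ((p - 1) / 2) + 1 := by omega
  refine ⟨fun h3 => ?_, ?_⟩
  · exact V11306.Toep.MM_m3 h3 _ hm x y z w
  · intro h1 K _ _ h2 α hα σ hσ ε hε hfund a b hab
    exact V11306.Toep.MM_m1 h1 K h2 α hα σ hσ ε hε hfund a b hab _ hm x y z w

end Pool.Agent.Results.MP_29211c_nt.MinusCase
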